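import Pool.Agent.N803.PM.QSa
import Pool.Agent.N874.JM.Stm

/-!
# Project JM, part QS: descent of squares along a quadratic extension, odd degree

Adapted from helper803's `Pool/Agent/N803/PM/QS.lean` (degree three), by helper301.
-/

set_option autoImplicit false
set_option linter.all false

open Module
open Pool.Agent.N803.PM (two_span exists_sqrt exists_conj norm_bc)

namespace Pool.Agent.N301.JM

/-- A square root generating `M` over `K` does not lie in the odd extension `L`. -/
theorem not_mem_odd (K L M Ω : Type) [Field K] [Field L] [Field M] [Field Ω] [Algebra K L]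
    [Algebra K M] [Algebra L Ω] [Algebra M Ω] [Algebra K Ω] [IsScalarTower K L Ω]
    [IsScalarTower K M Ω] (h3 : Odd (finrank K L)) (m : K) (β : M) (hβ : β ^ 2 = algebraMap K M m)
    (hn : ∀ c : K, algebraMap K M c ≠ β) (l : L) : algebraMap L Ω l ≠ algebraMap M Ω β := by
  intro hl
  haveI : FiniteDimensional K L := FiniteDimensional.of_finrank_pos h3.pos
  have hl2 : l ^ 2 = algebraMap K L m := by
    apply (algebraMap L Ω).injective
    rw [map_pow, hl, ← map_pow, hβ, ← IsScalarTower.algebraMap_apply K M Ω,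
      ← IsScalarTower.algebraMap_apply K L Ω]
  have hint : IsIntegral K l := IsIntegral.of_finite K l
  have hdvd : minpoly K l ∣ (Polynomial.X ^ 2 - Polynomial.C m : Polynomial K) :=
    minpoly.dvd K l (by simp [hl2])
  have hdeg : (minpoly K l).natDegree ≤ 2 := by
    have h := Polynomial.natDegree_le_of_dvd hdvd (Polynomial.X_pow_sub_C_ne_zero (by norm_num) m)
    rwa [Polynomial.natDegree_X_pow_sub_C] at h
  have hdeg3 : (minpoly K l).natDegree ∣ finrank K L := minpoly.degree_dvd (K := K) hint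
  have hodd : Odd (minpoly K l).natDegree := Odd.of_dvd_nat h3 hdeg3
  have hdeg1 : (minpoly K l).natDegree = 1 := by
    obtain ⟨j, hj⟩ := hodd
    omega
  obtain ⟨c, hc⟩ := minpoly.natDegree_eq_one_iff.1 hdeg1
  apply hn c
  apply (algebraMap M Ω).injective
  rw [← hl, ← hc, ← IsScalarTower.algebraMap_apply K M Ω, ← IsScalarTower.algebraMap_apply K L Ω]

theorem qs : Pool.Agent.N874.JM.S_QS := by
  intro K L M Ω _ _ _ _ _ _ _ _ _ _ _ h2 hM hL hΩ C hC2 hCm hCσ hd x hx hCx hNx
  obtain ⟨m, β, hβ, hβn⟩ := exists_sqrt K M h2 hM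
  have hβ0 : β ≠ 0 := by
    rintro rfl
    exact hβn 0 (map_zero _)
  have hm0 : m ≠ 0 := by
    rintro rfl
    rw [map_zero] at hβ
    exact hβ0 (pow_eq_zero_iff two_ne_zero |>.1 hβ)
  have hpos : 0 < finrank K L := hL.pos
  haveI : FiniteDimensional K L := FiniteDimensional.of_finrank_pos hpos
  haveI : FiniteDimensional K M := FiniteDimensional.of_finrank_pos (by omega)
  haveI : FiniteDimensional M Ω := FiniteDimensional.of_finrank_pos (by omega)
  haveI : FiniteDimensional K Ω := FiniteDimensional.trans K M Ω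
  haveI : FiniteDimensional L Ω := FiniteDimensional.right K L Ω
  have hLΩ : finrank L Ω = 2 := by
    have h1 := finrank_mul_finrank K M Ω
    have h3 := finrank_mul_finrank K L Ω
    rw [hM, hΩ, mul_comm] at h1
    exact Nat.eq_of_mul_eq_mul_left hpos (h3.trans h1.symm)
  have hωn := not_mem_odd K L M Ω hL m β hβ hβn
  have hω2 : (algebraMap M Ω β) ^ 2 = algebraMap L Ω (algebraMap K L m) := by
    rw [← map_pow, hβ, ← IsScalarTower.algebraMap_apply K M Ω,
      ← IsScalarTower.algebraMap_apply K L Ω]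
  have h2L : (2 : L) ≠ 0 := by
    intro h
    apply h2
    apply (algebraMap K L).injective
    rw [map_ofNat, h, map_zero]
  have h2M : (2 : M) ≠ 0 := by
    intro h
    apply h2
    apply (algebraMap K M).injective
    rw [map_ofNat, h, map_zero]
  obtain ⟨σ, hσω, hσN, hσfix⟩ := exists_conj L Ω h2L hLΩ (algebraMap K L m) (algebraMap M Ω β)
    hω2 hωn
  have hσx : σ x ≠ 0 := by simpa using hx
  have hω0 : algebraMap M Ω β ≠ 0 := by simpa using hβ0
  obtain ⟨c, hc⟩ := hNx
  have hx' : algebraMap L Ω (Algebra.norm L x) = x * σ x := hσN x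
  have hy0 : Algebra.norm L x ≠ 0 := by
    intro h0
    rw [h0, map_zero] at hx'
    exact mul_ne_zero hx hσx hx'.symm
  -- the norm to `L` is a square
  obtain ⟨z, hz⟩ : IsSquare (Algebra.norm L x) := by
    refine hd _ hy0 ?_ ?_
    · rw [hx']
      exact hCm _ _ hx hσx hCx (hCσ σ x hCx)
    · rw [Algebra.norm_norm (R := K) (S := L) (a := x), ← Algebra.norm_norm (R := K) (S := M) (a := x),
        hc, map_mul]
      exact ⟨_, rfl⟩
  have hz2 : x * σ x = (algebraMap L Ω z) ^ 2 := by
    rw [← hx', hz, map_mul, sq]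
  have hz0 : algebraMap L Ω z ≠ 0 := by
    intro h0
    rw [h0] at hz2
    exact mul_ne_zero hx hσx (by simpa using hz2)
  -- Hilbert 90
  obtain ⟨d, hd0, hdσ⟩ : ∃ d : Ω, d ≠ 0 ∧ d * x = algebraMap L Ω z * σ d := by
    by_cases hg : x + algebraMap L Ω z = 0
    · refine ⟨algebraMap M Ω β, hω0, ?_⟩
      rw [hσω]
      linear_combination (algebraMap M Ω β) * hg
    · refine ⟨(x + algebraMap L Ω z) * σ x, mul_ne_zero hg hσx, ?_⟩
      have hσ2 : σ (σ x) = x := by
        have h1 := congrArg σ hz2
        rw [map_mul, map_pow, AlgEquiv.commutes, ← hz2, mul_comm] at h1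
        exact mul_right_cancel₀ hσx h1
      rw [map_mul, map_add, AlgEquiv.commutes, hσ2]
      linear_combination x * hz2
  have hwσ : σ (x * d ^ 2) = x * d ^ 2 := by
    rw [map_mul, map_pow]
    have h4 : (algebraMap L Ω z) ^ 2 ≠ 0 := pow_ne_zero 2 hz0
    apply mul_left_cancel₀ h4
    linear_combination (-(σ x) * (d * x + algebraMap L Ω z * σ d)) * hdσ + d ^ 2 * x * hz2
  obtain ⟨w, hw⟩ := hσfix _ hwσ
  have hw0 : w ≠ 0 := by
    rintro rfl
    rw [map_zero] at hw
    exact mul_ne_zero hx (pow_ne_zero 2 hd0) hw.symm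
  have hCw : C (algebraMap L Ω w) := by
    rw [hw]
    exact hCm _ _ hx (pow_ne_zero 2 hd0) hCx (hC2 d hd0)
  -- it is enough that the image of `w` is a square
  have hfin : IsSquare (algebraMap L Ω w) → IsSquare x := by
    rintro ⟨r, hr⟩
    refine ⟨r / d, ?_⟩
    rw [hw] at hr
    field_simp
    rw [hr]
    ring
  have hspan : ∀ t : Ω, ∃ u v : L, t = algebraMap L Ω u + algebraMap L Ω v * algebraMap M Ω β :=
    two_span L Ω hLΩ _ hωn
  have hN : (c * Algebra.norm M d) ^ 2 = algebraMap K M (Algebra.norm K w) := by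
    rw [← norm_bc K L M Ω hΩ.symm hpos β hspan w, hw, map_mul, map_pow, hc]
    ring
  obtain ⟨p, q, hpq⟩ := two_span K M hM β hβn (c * Algebra.norm M d)
  rw [hpq] at hN
  have hcases : p = 0 ∨ q = 0 := by
    by_contra hcon
    push Not at hcon
    obtain ⟨hp, hq⟩ := hcon
    apply hβn ((Algebra.norm K w - p ^ 2 - q ^ 2 * m) / (2 * p * q))
    have hp' : algebraMap K M p ≠ 0 := by simpa using hp
    have hq' : algebraMap K M q ≠ 0 := by simpa using hq
    rw [map_div₀, map_sub, map_sub, map_mul, map_mul, map_mul, map_pow, map_pow, map_ofNat, ← hN,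
      ← hβ]
    field_simp
    ring
  rcases hcases with rfl | rfl
  · -- the norm is `m q ^ 2`
    have hn : Algebra.norm K w = q ^ 2 * m := by
      apply (algebraMap K M).injective
      rw [← hN, map_mul, map_pow, ← hβ]
      simp
      ring
    have hmL : algebraMap K L m ≠ 0 := by simpa using hm0
    obtain ⟨r, hr⟩ : IsSquare (algebraMap K L m * w) := by
      refine hd _ (mul_ne_zero hmL hw0) ?_ ?_
      · rw [map_mul, ← hω2]
        exact hCm _ _ (pow_ne_zero 2 hω0) (by simpa using hw0) (hC2 _ hω0) hCw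
      · obtain ⟨e, he⟩ := hL
        rw [map_mul, Algebra.norm_algebraMap, he, hn]
        exact ⟨m ^ (e + 1) * q, by ring⟩
    apply hfin
    refine ⟨algebraMap L Ω r / algebraMap M Ω β, ?_⟩
    have h5 := congrArg (algebraMap L Ω) hr
    rw [map_mul, map_mul, ← hω2] at h5
    field_simp
    rw [sq (algebraMap L Ω r), ← h5]
    ring
  · have hn : Algebra.norm K w = p * p := by
      apply (algebraMap K M).injective
      rw [← hN, map_mul]
      simp
      ring
    obtain ⟨r, hr⟩ := hd w hw0 hCw ⟨p, hn⟩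
    apply hfin
    exact ⟨algebraMap L Ω r, by rw [hr, map_mul]⟩

end Pool.Agent.N301.JM
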