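import Pool.Agent.N301.JM.QS
import Pool.Agent.N692.PM.Tow

/-!
# Descent along Galois 2-extensions (part TOW)

Project JM (helper874), odd degree; adapted by helper301 from helper692's
`Pool/Agent/N692/PM/Tow.lean` (degree three).
-/

set_option autoImplicit false
set_option linter.all false

open Polynomial Module
open scoped Classical IntermediateField

namespace Pool.Agent.N301.JM

open Pool.Agent.N874.JM (S_QS S_TOW)
open Pool.Agent.N692.PMTOW (im mem_im_iff mem_im finrank_im adj_top normal_of_top)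

section fields

variable {K L M Ω : Type} [Field K] [Field L] [Field M] [Field Ω] [Algebra K L] [Algebra K M]
  [Algebra L Ω] [Algebra M Ω] [Algebra K Ω] [IsScalarTower K L Ω] [IsScalarTower K M Ω]

theorem sup_top {m : ℕ} (hM : finrank K M = 2 ^ m) (hL : Odd (finrank K L))
    (hΩ : finrank M Ω = finrank K L) : im K M Ω ⊔ im K L Ω = ⊤ := by
  have f1 : FiniteDimensional K M := .of_finrank_pos (by rw [hM]; positivity)
  have f2 : FiniteDimensional M Ω := .of_finrank_pos (by rw [hΩ]; exact hL.pos)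
  have f3 : FiniteDimensional K Ω := FiniteDimensional.trans K M Ω
  have h1 : finrank K Ω = 2 ^ m * finrank K L := by rw [← finrank_mul_finrank K M Ω, hM, hΩ]
  have h2 : 2 ^ m ∣ finrank K (im K M Ω ⊔ im K L Ω : IntermediateField K Ω) := by
    rw [← hM, ← finrank_im (K := K) (L := M) (Ω := Ω)]
    exact IntermediateField.finrank_dvd_of_le_right le_sup_left
  have h3 : finrank K L ∣ finrank K (im K M Ω ⊔ im K L Ω : IntermediateField K Ω) := by
    rw [← finrank_im (K := K) (L := L) (Ω := Ω)]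
    exact IntermediateField.finrank_dvd_of_le_right le_sup_right
  have h4 : 2 ^ m * finrank K L ∣ finrank K (im K M Ω ⊔ im K L Ω : IntermediateField K Ω) :=
    Nat.Coprime.mul_dvd_of_dvd_of_dvd
      (Nat.Coprime.pow_left m ((Nat.coprime_two_left).2 hL)) h2 h3
  refine IntermediateField.eq_of_le_of_finrank_le le_top ?_
  rw [IntermediateField.finrank_top', h1]
  exact Nat.le_of_dvd finrank_pos h4

/-- the quadratic step -/
theorem step (h : S_QS) {K₁ : Type} [Field K₁] [Algebra K K₁] [Algebra K₁ M] [Algebra K₁ Ω]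
    [IsScalarTower K K₁ M] [IsScalarTower K₁ M Ω] [IsScalarTower K K₁ Ω] [Normal L Ω]
    [FiniteDimensional K Ω] (h2 : (2 : K) ≠ 0) (hK : finrank K K₁ = 2) (hL : Odd (finrank K L))
    (C : Ω → Prop) (hC1 : ∀ x : Ω, x ≠ 0 → C (x ^ 2))
    (hC2 : ∀ x y : Ω, x ≠ 0 → y ≠ 0 → C x → C y → C (x * y))
    (hC3 : ∀ (σ : Ω ≃ₐ[L] Ω) (x : Ω), C x → C (σ x))
    (hC4 : ∀ x : L, x ≠ 0 → C (algebraMap L Ω x) → IsSquare (Algebra.norm K x) → IsSquare x) :
    ∃ (L₁ : IntermediateField K Ω) (i : Algebra K₁ L₁) (_ : IsScalarTower K₁ L₁ Ω),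
      finrank K₁ L₁ = finrank K L ∧ (∀ l : L, algebraMap L Ω l ∈ L₁) ∧
      ∀ x : L₁, x ≠ 0 → C (algebraMap L₁ Ω x) → IsSquare (Algebra.norm K₁ x) → IsSquare x := by
  have f1 : FiniteDimensional K K₁ := .of_finrank_pos (by rw [hK]; norm_num)
  set L₁ : IntermediateField K Ω := im K L Ω ⊔ im K K₁ Ω with hL₁
  have m1 : ∀ l : L, algebraMap L Ω l ∈ L₁ := fun l =>
    (le_sup_left : im K L Ω ≤ L₁) (mem_im l)
  have m2 : ∀ l : K₁, algebraMap K₁ Ω l ∈ L₁ := fun l =>
    (le_sup_right : im K K₁ Ω ≤ L₁) (mem_im l)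
  have hpos : 0 < finrank K L := hL.pos
  have f0 : FiniteDimensional K L := .of_finrank_pos hpos
  have d1 : finrank K L ∣ finrank K L₁ := by
    rw [← finrank_im (K := K) (L := L) (Ω := Ω)]
    exact IntermediateField.finrank_dvd_of_le_right le_sup_left
  have d2 : 2 ∣ finrank K L₁ := by
    rw [← hK, ← finrank_im (K := K) (L := K₁) (Ω := Ω)]
    exact IntermediateField.finrank_dvd_of_le_right le_sup_right
  have d3 : finrank K L₁ ≤ finrank K L * 2 := by
    have h3 := IntermediateField.finrank_sup_le (im K L Ω) (im K K₁ Ω)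
    rw [finrank_im, finrank_im, hK] at h3
    exact h3
  have d4 : 0 < finrank K L₁ := finrank_pos
  have d5 : finrank K L₁ = 2 * finrank K L := by
    have h5 : 2 * finrank K L ∣ finrank K L₁ :=
      Nat.Coprime.mul_dvd_of_dvd_of_dvd ((Nat.coprime_two_left).2 hL) d2 d1
    have h6 := Nat.le_of_dvd d4 h5
    omega
  clear_value L₁
  letI i1 : Algebra L L₁ := ((algebraMap L Ω).codRestrict L₁ m1).toAlgebra
  letI i2 : Algebra K₁ L₁ := ((algebraMap K₁ Ω).codRestrict L₁ m2).toAlgebra
  haveI t1 : IsScalarTower L L₁ Ω := IsScalarTower.of_algebraMap_eq fun _ => rfl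
  haveI t2 : IsScalarTower K₁ L₁ Ω := IsScalarTower.of_algebraMap_eq fun _ => rfl
  haveI t3 : IsScalarTower K L L₁ := IsScalarTower.of_algebraMap_eq fun x =>
    Subtype.ext (IsScalarTower.algebraMap_apply K L Ω x)
  haveI t4 : IsScalarTower K K₁ L₁ := IsScalarTower.of_algebraMap_eq fun x =>
    Subtype.ext (IsScalarTower.algebraMap_apply K K₁ Ω x)
  have d6 : finrank K₁ L₁ = finrank K L := by
    have h3 := finrank_mul_finrank K K₁ L₁
    rw [hK, d5] at h3
    omega
  refine ⟨L₁, i2, t2, d6, m1, ?_⟩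
  intro x hx hCx hn
  refine h K L K₁ L₁ h2 hK hL d6 (fun x => C (algebraMap L₁ Ω x)) ?_ ?_ ?_ ?_ x hx hCx hn
  · intro x hx
    have := hC1 (algebraMap L₁ Ω x) (by simpa using hx)
    rw [← map_pow] at this
    exact this
  · intro x y hx hy h3 h4
    have := hC2 (algebraMap L₁ Ω x) (algebraMap L₁ Ω y) (by simpa using hx) (by simpa using hy)
      h3 h4
    rw [← map_mul] at this
    exact this
  · intro σ x h3
    have h4 := hC3 (σ.liftNormal Ω) _ h3
    rw [AlgEquiv.liftNormal_commutes] at h4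
    exact h4
  · intro x hx h3 h4
    rw [← IsScalarTower.algebraMap_apply L L₁ Ω] at h3
    exact hC4 x hx h3 h4

end fields

theorem tow (h : S_QS) : S_TOW := by
  intro n
  induction n with
  | zero =>
    intro K L M Ω _ _ _ _ _ _ _ _ _ _ _ _ h2 hM hL hΩ C hC1 hC2 hC3 hC4 x hx hCx hn
    have f1 : FiniteDimensional K M := .of_finrank_pos (by rw [hM]; positivity)
    have hpos : 0 < finrank K L := hL.pos
    have f2 : FiniteDimensional M Ω := .of_finrank_pos (by rw [hΩ]; exact hpos)
    have f3 : FiniteDimensional K Ω := FiniteDimensional.trans K M Ω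
    have f4 : FiniteDimensional K L := .of_finrank_pos hpos
    have f5 : FiniteDimensional L Ω := FiniteDimensional.right K L Ω
    have h1 : finrank K Ω = finrank K L := by
      rw [← finrank_mul_finrank K M Ω, hM, hΩ]
      norm_num
    have h3 : finrank L Ω = 1 := by
      have h4 := finrank_mul_finrank K L Ω
      rw [h1] at h4
      exact Nat.eq_of_mul_eq_mul_left hpos (h4.trans (mul_one _).symm)
    have h5 : Function.Surjective (algebraMap L Ω) := by
      intro z
      have h6 : z ∈ (⊥ : Subalgebra L Ω) := by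
        rw [Subalgebra.bot_eq_top_of_finrank_eq_one h3]
        exact Algebra.mem_top
      exact Algebra.mem_bot.1 h6
    obtain ⟨y, rfl⟩ := h5 x
    have hy : y ≠ 0 := fun h0 => hx (by rw [h0, map_zero])
    have h6 : IsSquare (Algebra.norm K y) := by
      have h7 : Algebra.norm K (algebraMap L Ω y) = Algebra.norm K y := by
        rw [← Algebra.norm_norm (S := L), Algebra.norm_algebraMap, h3, pow_one]
      have h8 : Algebra.norm K (Algebra.norm M (algebraMap L Ω y))
          = Algebra.norm K (algebraMap L Ω y) := Algebra.norm_norm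
      rw [← h7, ← h8]
      exact hn.map _
    exact (hC4 y hy hCx h6).map _
  | succ n ih =>
    intro K L M Ω _ _ _ _ _ _ _ _ _ _ _ _ h2 hM hL hΩ C hC1 hC2 hC3 hC4
    have f1 : FiniteDimensional K M := .of_finrank_pos (by rw [hM]; positivity)
    have hpos : 0 < finrank K L := hL.pos
    have f2 : FiniteDimensional M Ω := .of_finrank_pos (by rw [hΩ]; exact hpos)
    have f3 : FiniteDimensional K Ω := FiniteDimensional.trans K M Ω
    have f4 : FiniteDimensional K L := .of_finrank_pos hpos
    have f5 : FiniteDimensional L Ω := FiniteDimensional.right K L Ω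
    have hcard : Nat.card (M ≃ₐ[K] M) = 2 ^ (n + 1) := by
      rw [IsGalois.card_aut_eq_finrank, hM]
    obtain ⟨H, hH⟩ := Sylow.exists_subgroup_card_pow_prime (G := M ≃ₐ[K] M) 2 (n := n)
      (by rw [hcard]; exact pow_dvd_pow 2 (Nat.le_succ n))
    set K₁ := IntermediateField.fixedField H with hK₁
    have d1 : finrank K₁ M = 2 ^ n := by
      rw [IntermediateField.finrank_fixedField_eq_card, hH]
    clear_value K₁
    have d2 : finrank K K₁ = 2 := by
      have h4 := finrank_mul_finrank K K₁ M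
      rw [hM, d1, pow_succ, mul_comm] at h4
      exact Nat.eq_of_mul_eq_mul_left (by positivity) h4
    have hN : Normal L Ω := normal_of_top (sup_top hM hL hΩ)
    obtain ⟨L₁, i1, t1, d3, m1, hs⟩ := step h (K₁ := K₁) (M := M) h2 d2 hL C hC1 hC2 hC3 hC4
    have h2' : (2 : K₁) ≠ 0 := by
      have := (map_ne_zero (algebraMap K K₁)).2 h2
      rwa [map_ofNat] at this
    refine ih K₁ L₁ M Ω h2' d1 (d3 ▸ hL) (hΩ.trans d3.symm) C hC1 hC2 ?_ hs
    intro σ x hx
    let τ : Ω ≃ₐ[L] Ω := AlgEquiv.ofRingEquiv (f := σ.toRingEquiv)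
      (fun l => σ.commutes ⟨algebraMap L Ω l, m1 l⟩)
    exact hC3 τ x hx

/-- Descent along a Galois 2-extension, odd degree. -/
theorem tow' : S_TOW := tow qs

end Pool.Agent.N301.JM
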